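import Pool.Agent.LRG.StmtsH

/-! Squad LRG, row HCT (helper67): a contraction in a ring of power series. -/

set_option autoImplicit false

open Polynomial

namespace Pool.Agent.LRG.H67

/-- row HCT -/
theorem hct : H.HctStmt := by
  intro R _ a v H hv
  obtain ⟨v0, rfl⟩ := hv
  obtain ⟨U, hU0, hU⟩ : ∃ U : ℕ → PowerSeries R, U 0 = 0 ∧
      ∀ n, U (n + 1) = -(((v0⁻¹ : (PowerSeries R)ˣ) : PowerSeries R) *
        (a + PowerSeries.X * H.eval (U n))) :=
    ⟨fun n => Nat.rec 0 (fun _ u => -(((v0⁻¹ : (PowerSeries R)ˣ) : PowerSeries R) *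
        (a + PowerSeries.X * H.eval u))) n, rfl, fun _ => rfl⟩
  have hv1 : (v0 : PowerSeries R) * ((v0⁻¹ : (PowerSeries R)ˣ) : PowerSeries R) = 1 :=
    v0.mul_inv
  have hU2 : ∀ n, a + (v0 : PowerSeries R) * U (n + 1) + PowerSeries.X * H.eval (U n) = 0 := by
    intro n
    rw [hU n]
    linear_combination (-(a + PowerSeries.X * H.eval (U n))) * hv1
  have hdiv : ∀ n, (PowerSeries.X : PowerSeries R) ^ n ∣ U (n + 1) - U n := by
    intro n
    induction n with
    | zero => rw [pow_zero]; exact one_dvd _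
    | succ n ih =>
      have h1 : U (n + 1 + 1) - U (n + 1) = -((v0⁻¹ : (PowerSeries R)ˣ) : PowerSeries R) *
          (PowerSeries.X * (H.eval (U (n + 1)) - H.eval (U n))) := by
        linear_combination hU (n + 1) - hU n
      rw [h1, pow_succ, mul_comm ((PowerSeries.X : PowerSeries R) ^ n)]
      exact Dvd.dvd.mul_left (mul_dvd_mul_left _ (ih.trans (Polynomial.sub_dvd_eval_sub _ _ _))) _
  have hdiv2 : ∀ n k, (PowerSeries.X : PowerSeries R) ^ n ∣ U (n + k) - U n := by
    intro n k
    induction k with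
    | zero => rw [add_zero, sub_self]; exact dvd_zero _
    | succ k ih =>
      have h1 : U (n + (k + 1)) - U n = (U (n + k + 1) - U (n + k)) + (U (n + k) - U n) := by
        rw [← add_assoc]; ring
      rw [h1]
      exact dvd_add ((pow_dvd_pow _ (Nat.le_add_right n k)).trans (hdiv _)) ih
  refine ⟨PowerSeries.mk fun n => PowerSeries.coeff n (U (n + 1)), ?_⟩
  set u : PowerSeries R := PowerSeries.mk fun n => PowerSeries.coeff n (U (n + 1)) with hu
  have hu2 : ∀ n, (PowerSeries.X : PowerSeries R) ^ n ∣ u - U n := by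
    intro n
    rw [PowerSeries.X_pow_dvd_iff]
    intro m hm
    obtain ⟨k, rfl⟩ : ∃ k, n = (m + 1) + k := ⟨n - (m + 1), by omega⟩
    have h1 := (PowerSeries.X_pow_dvd_iff.1 (hdiv2 (m + 1) k)) m (Nat.lt_succ_self m)
    rw [map_sub, hu, PowerSeries.coeff_mk, ← neg_sub, ← map_sub, h1, neg_zero]
  have hfin : ∀ n, (PowerSeries.X : PowerSeries R) ^ n ∣
      a + (v0 : PowerSeries R) * u + PowerSeries.X * H.eval u := by
    intro n
    have h1 : a + (v0 : PowerSeries R) * u + PowerSeries.X * H.eval u =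
        (v0 : PowerSeries R) * (u - U (n + 1)) +
          PowerSeries.X * (H.eval u - H.eval (U n)) := by
      linear_combination hU2 n
    rw [h1]
    exact dvd_add (Dvd.dvd.mul_left ((pow_dvd_pow _ (Nat.le_succ n)).trans (hu2 (n + 1))) _)
      (Dvd.dvd.mul_left ((hu2 n).trans (Polynomial.sub_dvd_eval_sub _ _ _)) _)
  ext n
  rw [map_zero]
  exact (PowerSeries.X_pow_dvd_iff.1 (hfin (n + 1))) n (Nat.lt_succ_self n)

end Pool.Agent.LRG.H67
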