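import Pool.Agent.LRG.StmtsE

/-! Squad LRG, row FCT (helper67): the factors of `G`. -/

set_option autoImplicit false

open Polynomial

namespace Pool.Agent.LRG.H67

open Pool.Agent.LRG.E

theorem filter_inl {r₁ r₂ : ℕ} (i : Fin r₁) :
    Finset.univ.filter (fun o : Ro r₁ r₂ => fac o = Sum.inl i) = {Sum.inl i} := by
  ext o
  rw [Finset.mem_filter, Finset.mem_singleton]
  rcases o with i' | ⟨j', b⟩
  · simp [fac]
  · simp [fac]

theorem filter_inr {r₁ r₂ : ℕ} (j : Fin r₂) :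
    Finset.univ.filter (fun o : Ro r₁ r₂ => fac o = Sum.inr j) =
      {Sum.inr (j, true), Sum.inr (j, false)} := by
  ext o
  rw [Finset.mem_filter, Finset.mem_insert, Finset.mem_singleton]
  rcases o with i' | ⟨j', b⟩
  · simp [fac]
  · cases b <;> simp [fac]

/-- row FCT -/
theorem fct : FctStmt := by
  intro r₁ r₂ t
  have hk : ∀ k : Fa r₁ r₂, (gp t k).Monic ∧ (gp t k).natDegree = mu k ∧
      (gp t k).map (Int.castRingHom ℂ) =
        ∏ o ∈ Finset.univ.filter (fun o : Ro r₁ r₂ => fac o = k), (X - C ((t : ℂ) * om o)) := by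
    intro k
    rcases k with i | j
    · refine ⟨monic_X_sub_C _, natDegree_X_sub_C _, ?_⟩
      rw [filter_inl, Finset.prod_singleton]
      have h1 : om (Sum.inl i : Ro r₁ r₂) = (5 : ℂ) ^ i.1 := by
        simp [om, omre, omim, ex, fac]
      rw [h1]
      simp only [gp, Sum.elim_inl, Polynomial.map_sub, map_X, map_C]
      rw [mul_comm ((t : ℂ))]
      simp
    · have hm : (gp t (Sum.inr j : Fa r₁ r₂)) = X ^ 2 - C (2 * 5 ^ (r₁ + j.1) * (t : ℤ)) * X +
          C (2 * 25 ^ (r₁ + j.1) * (t : ℤ) ^ 2) := rfl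
      refine ⟨?_, ?_, ?_⟩
      · rw [hm]
        monicity!
      · rw [hm]
        have h2 : mu (Sum.inr j : Fa r₁ r₂) = 2 := rfl
        rw [h2]
        compute_degree!
      · have hne : (Sum.inr (j, true) : Ro r₁ r₂) ≠ Sum.inr (j, false) := by simp
        rw [filter_inr, Finset.prod_pair hne, hm]
        have h1 : om (Sum.inr (j, true) : Ro r₁ r₂) =
            (5 : ℂ) ^ (r₁ + j.1) + (5 : ℂ) ^ (r₁ + j.1) * Complex.I := by
          simp [om, omre, omim, ex, fac]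
        have h2 : om (Sum.inr (j, false) : Ro r₁ r₂) =
            (5 : ℂ) ^ (r₁ + j.1) - (5 : ℂ) ^ (r₁ + j.1) * Complex.I := by
          simp [om, omre, omim, ex, fac, sub_eq_add_neg]
        have h25 : (25 : ℂ) ^ (r₁ + j.1) = ((5 : ℂ) ^ (r₁ + j.1)) ^ 2 := by
          rw [← pow_mul, mul_comm, pow_mul]; norm_num
        rw [h1, h2]
        have e1 : (X - C ((t : ℂ) * ((5 : ℂ) ^ (r₁ + j.1) + (5 : ℂ) ^ (r₁ + j.1) * Complex.I))) *
            (X - C ((t : ℂ) * ((5 : ℂ) ^ (r₁ + j.1) - (5 : ℂ) ^ (r₁ + j.1) * Complex.I))) =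
            X ^ 2 - C (2 * (5 : ℂ) ^ (r₁ + j.1) * t) * X +
              C (2 * (25 : ℂ) ^ (r₁ + j.1) * (t : ℂ) ^ 2) := by
          have e2 : 2 * (5 : ℂ) ^ (r₁ + j.1) * t =
              (t : ℂ) * ((5 : ℂ) ^ (r₁ + j.1) + (5 : ℂ) ^ (r₁ + j.1) * Complex.I) +
              (t : ℂ) * ((5 : ℂ) ^ (r₁ + j.1) - (5 : ℂ) ^ (r₁ + j.1) * Complex.I) := by ring
          have e3 : 2 * (25 : ℂ) ^ (r₁ + j.1) * (t : ℂ) ^ 2 =
              ((t : ℂ) * ((5 : ℂ) ^ (r₁ + j.1) + (5 : ℂ) ^ (r₁ + j.1) * Complex.I)) *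
              ((t : ℂ) * ((5 : ℂ) ^ (r₁ + j.1) - (5 : ℂ) ^ (r₁ + j.1) * Complex.I)) := by
            rw [h25]
            linear_combination ((t : ℂ) ^ 2 * ((5 : ℂ) ^ (r₁ + j.1)) ^ 2) * Complex.I_sq
          rw [e2, e3, map_add, map_mul C (_ * _) (_ * _)]
          ring
        have c1 : Int.castRingHom ℂ (2 * 5 ^ (r₁ + j.1) * (t : ℤ)) = 2 * (5 : ℂ) ^ (r₁ + j.1) * t := by
          simp
        have c2 : Int.castRingHom ℂ (2 * 25 ^ (r₁ + j.1) * (t : ℤ) ^ 2) =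
            2 * (25 : ℂ) ^ (r₁ + j.1) * (t : ℂ) ^ 2 := by
          simp
        rw [e1, Polynomial.map_add, Polynomial.map_sub, Polynomial.map_pow, Polynomial.map_mul,
          map_X, map_C, map_C, c1, c2]
  refine ⟨hk, monic_prod_of_monic _ _ fun k _ => (hk k).1, ?_, ?_⟩
  · unfold Gp
    rw [natDegree_prod_of_monic _ _ fun k _ => (hk k).1,
      Finset.sum_congr rfl fun k _ => (hk k).2.1, Fintype.sum_sum_type]
    simp [mu, mul_comm]
  · unfold Gp
    rw [Polynomial.map_prod, Finset.prod_congr rfl fun k _ => (hk k).2.2]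
    exact Finset.prod_fiberwise _ _ _

end Pool.Agent.LRG.H67
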